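import Pool.Agent.helper42.CQ.SpecC

set_option autoImplicit false

namespace Pool.Agent.helper42.CQ

open Finset Pool.Agent.helper24.CG

theorem ALT (hLM3 : LM3_stmt) (hLM5 : LM5_stmt) (hAL1 : AL1_stmt) (hAL2 : AL2_stmt)
    (hAL3 : AL3_stmt) (hWTA : WTA_stmt) : ALT_stmt := by
  classical
  intro N m b q p M k s c R a χ l H K hN hm hb hq hp hc hM hk hs hH hK hcol hX hl ha ha1 hχ hχa
    hχ2 hχf hms
  have hsR : (2 : ℝ) ≤ (s : ℝ) := by exact_mod_cast hs
  have hmR : (1 : ℝ) ≤ (m : ℝ) := by exact_mod_cast hm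
  have hms0 : 0 < 2 * (m : ℝ) * (s : ℝ) := by positivity
  have hla : 0 < l / a := lt_trans hms0 hms
  have hl0 : 0 < l := by
    have := mul_pos hla ha
    rwa [div_mul_cancel₀ _ ha.ne'] at this
  have hκ : 0 < l / a - 2 * (m : ℝ) * (s : ℝ) := by linarith
  rcases hAL3 N m b M s l (l / a - 2 * (m : ℝ) * (s : ℝ)) H K hm hb hM hs hH hl0 hκ with h | h
  · left
    obtain ⟨H₂, H₁, A, B, hHH, hne, hGA, hAB, hBK, hAc, hBc, hBmin, hAB2⟩ := h
    obtain ⟨X, hX1⟩ := hX H₂ H₁ hHH hne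
    have hH' : Hist N m (H₂ ++ H₁) := hHH ▸ hH
    obtain ⟨Y, hGY, hYK, hY⟩ := hLM3 N m b q p M k s c R H₂ H₁ K X hN hm hb hq hp hc hM hk
      (by omega) hH' hK hcol hX1
    rw [← hl] at hY
    have hGK : Gs M K s H₁ ⊆ K := hGY.trans hYK
    have hAK : A ⊆ K := hAB.trans hBK
    obtain ⟨h1a, h1b⟩ := hAL1 N m b l H₂ H₁ K hm hb hH'
    have hgA := h1a A hAK
    have hgB := h1a B hBK
    have hBA : gf b m K H₁ l B ≤ gf b m K H₁ l A := hBmin A hGA hAK
    have hBY : gf b m K H₁ l B ≤ gf b m K H₁ l Y := hBmin Y hGY hYK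
    rw [hHH]
    have hδ : 0 ≤ 2 * (m : ℝ) * (s : ℝ) * a := by positivity
    have key := hLM5 (Fin N) K (Gs M K s H₁) A B (wt b m K (H₂ ++ H₁))
      ((ed K).filter (fun e => ∃ E ∈ H₁, e ∈ E)) ((ed K).filter (tch M K s (H₂ ++ H₁)))
      l a χ (1 - 1 / (s : ℝ)) (2 * (m : ℝ) * (s : ℝ) * a) hGA hAB hBK
      (fun e => (hWTA N m b K (H₂ ++ H₁) hm hb hH').1 e)
      (filter_subset _ _) (filter_subset _ _)
      (by
        intro e he hd heT
        rw [mem_filter] at he heT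
        exact hAL2 N m M s H₂ H₁ K e hM hH' he.2 hd heT.2)
      hl0.le ha ha1 hχ hχa hχ2 hχf
      (by have : 0 ≤ 1 / (s : ℝ) := by positivity
          linarith)
      (by
        have h1 : (A.card : ℝ) ≤ l / a := by linarith
        calc a * (A.card : ℝ) ≤ a * (l / a) := mul_le_mul_of_nonneg_left h1 ha.le
          _ = l := by field_simp)
      (by
        have h1 : a * (l / a - 2 * (m : ℝ) * (s : ℝ)) ≤ a * (B.card : ℝ) :=
          mul_le_mul_of_nonneg_left hBc ha.le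
        have h2 : a * (l / a - 2 * (m : ℝ) * (s : ℝ)) = l - 2 * (m : ℝ) * (s : ℝ) * a := by
          field_simp
        linarith)
      hδ
      (by rw [← hgA, ← hgB]; exact hBA)
    rw [← hgA, hK] at key
    have hS : ∑ v ∈ Gs M K s H₁, (l - min (∑ u ∈ (Gs M K s H₁).erase v,
        if {v, u} ∈ (ed K).filter (fun e => ∃ E ∈ H₁, e ∈ E) then wt b m K (H₂ ++ H₁) {v, u}
        else 0) l / 2) =
        ∑ v ∈ Gs M K s H₁, (l - min (wv b m K H₁ v (Gs M K s H₁)) l / 2) := by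
      refine sum_congr rfl fun v hv => ?_
      rw [h1b (Gs M K s H₁) hGK v hv]
    rw [hS] at key
    have hf : 1 - (1 - 1 / (s : ℝ)) = 1 / (s : ℝ) := by ring
    rw [hf] at key
    have hda : l * (2 * (m : ℝ) * (s : ℝ) * a) / a = 2 * (m : ℝ) * (s : ℝ) * l := by
      field_simp
    rw [hda] at key
    unfold er
    rw [← hl]
    have h4 : 4 * (m : ℝ) * (s : ℝ) * l = 2 * (m : ℝ) * (s : ℝ) * l + 2 * (m : ℝ) * (s : ℝ) * l := by
      ring
    rw [h4]
    linarith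
  · right
    exact h

end Pool.Agent.helper42.CQ
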