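import Pool.Agent.helper42.CQ.SpecC

set_option autoImplicit false

namespace Pool.Agent.helper42.CQ

open Finset Pool.Agent.helper24.CG

theorem NUA_log : 41 * Real.log 3 ≤ 65 * Real.log 2 := by
  have h : (3 : ℝ) ^ 41 ≤ 2 ^ 65 := by norm_num
  have h2 := Real.log_le_log (by positivity) h
  rw [Real.log_pow, Real.log_pow] at h2
  exact_mod_cast h2

theorem NUA : NUA_stmt := by
  have h2 : 0 < Real.log 2 := Real.log_pos (by norm_num)
  have h32 : Real.log (3 / 2 : ℝ) = Real.log 3 - Real.log 2 :=
    Real.log_div (by norm_num) (by norm_num)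
  have hp : 0 < Real.log (3 / 2 : ℝ) := Real.log_pos (by norm_num)
  have ha : aa 2 1 = Real.log 2 / (2 * Real.log (3 / 2)) := by
    unfold aa
    norm_num
  have h9 : Real.log 2 ≤ 2 * Real.log (3 / 2 : ℝ) := by
    have h : (2 : ℝ) ≤ (3 / 2) ^ 2 := by norm_num
    have h3 := Real.log_le_log (by norm_num) h
    rw [Real.log_pow] at h3
    exact_mod_cast h3
  have hlow : (41 / 48 : ℝ) ≤ aa 2 1 := by
    rw [ha, div_le_div_iff₀ (by norm_num) (by positivity)]
    have := NUA_log
    rw [h32]
    linarith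
  have hup : aa 2 1 ≤ 1 := by
    rw [ha, div_le_one (by positivity)]
    exact h9
  refine ⟨by linarith, hup, by nlinarith, by nlinarith⟩

end Pool.Agent.helper42.CQ
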