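import Pool.Agent.helper42.CQ.SpecC

set_option autoImplicit false

namespace Pool.Agent.helper42.CQ

open Finset Pool.Agent.helper24.CG

theorem SET_sdiff {N : ℕ} (S : Finset (Finset (Fin N))) (p : Finset (Fin N) → Prop)
    (i1 : DecidablePred p) (i2 : DecidablePred fun e => ¬ p e)
    (i3 : DecidableEq (Finset (Fin N))) :
    @SDiff.sdiff _ (@Finset.instSDiff _ i3) S (@Finset.filter _ p i1 S) =
      @Finset.filter _ (fun e => ¬ p e) i2 S := by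
  ext e
  simp only [mem_sdiff, mem_filter]
  tauto

theorem SET (hSE1 : SE1_stmt) (hCAS : CAS_stmt) (hLSS : LSS_stmt) (hWTA : WTA_stmt)
    (hWTC : WTC_stmt) (hER1 : ER1_stmt) (hER2 : ER2_stmt) : SET_stmt := by
  classical
  intro m b s ε δ hm hb hs hε hδ haa haa1
  obtain ⟨k, hk, hkδ⟩ : ∃ k : ℕ, 1 ≤ k ∧ 1 / (k : ℝ) ≤ δ / 2 := by
    refine ⟨⌈2 / δ⌉₊ + 1, by omega, ?_⟩
    have h1 : 2 / δ ≤ ((⌈2 / δ⌉₊ + 1 : ℕ) : ℝ) := by
      push_cast
      have := Nat.le_ceil (2 / δ)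
      linarith
    have h2 : 0 < 2 / δ := by positivity
    have h3 : 1 / ((⌈2 / δ⌉₊ + 1 : ℕ) : ℝ) ≤ 1 / (2 / δ) := one_div_le_one_div_of_le h2 h1
    have h4 : 1 / (2 / δ) = δ / 2 := by field_simp
    linarith
  have hδ4 : 0 < δ / 4 := by positivity
  obtain ⟨N1, hN1⟩ := hER1 m b k s ε (δ / 4) hm hb hk hs hε hδ4
  obtain ⟨N2, hN2⟩ := hER2 m b k s ε (δ / 4) hm hb hk hs hε hδ4
  obtain ⟨N3, hN3⟩ := hER2 m b k 2 ε (δ / 4) hm hb hk le_rfl hε hδ4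
  refine ⟨max N1 (max N2 N3), fun N hN hA => ?_⟩
  obtain ⟨l, hl⟩ : ∃ l : ℝ, l = Real.log N / Real.log (1 + (b : ℝ) / (m : ℝ)) := ⟨_, rfl⟩
  obtain ⟨q, hq⟩ : ∃ q : ℕ, q = ⌈(2 + ε) * l⌉₊ := ⟨_, rfl⟩
  obtain ⟨M, hM⟩ : ∃ M : ℕ, M = ⌈(k : ℝ) ^ 2 * (Real.log (2 * (k : ℝ) * (q : ℝ) ^ 2) + 1)⌉₊ :=
    ⟨_, rfl⟩
  obtain ⟨h1N, h1q, h1M, h0l, hlq, hcol, hms, h4m, hg1, hg2, hg3, hg4⟩ :=
    hN1 N (le_trans (le_max_left _ _) hN) l q M hl hq hM
  have her := hN2 N (le_trans (le_trans (le_max_left _ _) (le_max_right _ _)) hN) l q hl hq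
  have her2 := hN3 N (le_trans (le_trans (le_max_right _ _) (le_max_right _ _)) hN) l q hl hq
  rw [← hl] at hA
  have hqA : q ≤ A N m b := by
    rw [hq]
    exact Nat.ceil_le.2 hA.le
  obtain ⟨H, K, hH, hK, hcl, hsum, hch⟩ := hSE1 N m b q l h1N hm hb h1q hqA hl
  have hqR : (1 : ℝ) ≤ (q : ℝ) := by exact_mod_cast h1q
  have hq2 : (0 : ℝ) ≤ (q : ℝ) ^ 2 := by positivity
  have hδq : 0 ≤ δ * (q : ℝ) ^ 2 := by positivity
  have hkq : (q : ℝ) ^ 2 / (k : ℝ) ≤ δ / 2 * (q : ℝ) ^ 2 := by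
    have h := mul_le_mul_of_nonneg_right hkδ hq2
    calc (q : ℝ) ^ 2 / (k : ℝ) = 1 / (k : ℝ) * (q : ℝ) ^ 2 := by ring
      _ ≤ _ := h
  have hwt01 : ∀ e, 0 ≤ wt b m K H e ∧ wt b m K H e ≤ 1 := (hWTA N m b K H hm hb hH).1
  obtain ⟨hls1, hls2⟩ := hLSS N m b q M s K H hm hb hH h1M hs hK hcl
  have hl2 : l ≤ (q : ℝ) / 2 := by nlinarith
  have hc1 : (1 : ℝ) ≤ 2 * (b : ℝ) + 3 := by
    have : (0 : ℝ) ≤ (b : ℝ) := Nat.cast_nonneg b
    linarith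
  refine ⟨(q : ℝ), l, ed K, (ed K).filter (tch M K 2 H), (ed K).filter (tch M K s H),
    wt b m K H, filter_subset _ _, filter_subset _ _, hqR, by linarith, h0l, hlq, ?_, ?_, ?_,
    ?_, ?_, ?_, ?_⟩
  · show ((K.powersetCard 2).card : ℝ) = _
    rw [card_powersetCard, hK, Nat.cast_choose_two]
  · intro e he
    obtain ⟨E, hE, heE⟩ := hcl e he
    refine ⟨?_, (hwt01 e).2⟩
    exact (hWTC N m b K H hm hb hH E hE e heE he).1
  · linarith
  · rw [SET_sdiff (i2 := fun e => instDecidableNot)]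
    refine le_trans hls1 ?_
    linarith
  · rw [SET_sdiff (i2 := fun e => instDecidableNot)]
    refine le_trans hls2 ?_
    linarith
  · intro a χ ha ha1 hχ hχa hχ2 hχf
    rcases hCAS N m b q (q ^ 2) M k s (2 * (b : ℝ) + 3)
      (Real.log (2 * (b : ℝ) + 3) + Real.log ((q : ℝ) + 1) + 2 * Real.log N) a χ l H K h1N hm hb
      h1q (Nat.one_le_pow _ _ h1q) hc1 h1M hk hs hH hK hcl hcol hch hl hl2 ha ha1 hχ hχa hχ2 hχf
      haa haa1 hms with h | h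
    · left
      refine le_trans h ?_
      linarith
    · right
      rw [SET_sdiff (i2 := fun e => instDecidableNot)]
      refine le_trans h ?_
      linarith
  · intro a χ ha ha1 hχ hχa hχ2 hχf
    rcases hCAS N m b q (q ^ 2) M k 2 (2 * (b : ℝ) + 3)
      (Real.log (2 * (b : ℝ) + 3) + Real.log ((q : ℝ) + 1) + 2 * Real.log N) a χ l H K h1N hm hb
      h1q (Nat.one_le_pow _ _ h1q) hc1 h1M hk le_rfl hH hK hcl hcol hch hl hl2 ha ha1 hχ hχa hχ2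
      (by push_cast; linarith) haa haa1 (by push_cast; linarith) with h | h
    · left
      refine le_trans h ?_
      linarith
    · right
      rw [SET_sdiff (i2 := fun e => instDecidableNot)]
      refine le_trans h ?_
      linarith

end Pool.Agent.helper42.CQ
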